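import Mathlib

set_option autoImplicit false

namespace Pool.Agent.Results.MP_01ee34_gt.Counter

open Set

abbrev E3 : Type := EuclideanSpace ℝ (Fin 3)

theorem norm_sq3 (x : E3) : ‖x‖ ^ 2 = x 0 ^ 2 + x 1 ^ 2 + x 2 ^ 2 := by
  rw [EuclideanSpace.norm_sq_eq]
  simp [Fin.sum_univ_three]

theorem mem_sph (x : E3) : x ∈ Metric.sphere (0 : E3) 1 ↔ x 0 ^ 2 + x 1 ^ 2 + x 2 ^ 2 = 1 := by
  rw [mem_sphere_zero_iff_norm, ← norm_sq3]
  constructor
  · intro h; rw [h]; norm_num
  · intro h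
    nlinarith [norm_nonneg x]

noncomputable def p1 : E3 := !₂[1, 0, 0]
noncomputable def p2 : E3 := !₂[-1/2, √3/2, 0]
noncomputable def p3 : E3 := !₂[-1/2, -(√3/2), 0]
noncomputable def q2 : E3 := !₂[0, 1, 0]
noncomputable def q3 : E3 := !₂[0, 0, 1]

theorem s3 : (√3 : ℝ) ^ 2 = 3 := Real.sq_sqrt (by norm_num)
theorem s3pos : (0 : ℝ) < √3 := Real.sqrt_pos.2 (by norm_num)

/-- Euclidean space of dimension `d + 1` -/
abbrev E (d : ℕ) : Type := EuclideanSpace ℝ (Fin (d + 1))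

/-- the unit sphere of dimension `d` -/
def Sph (d : ℕ) : Set (E d) := Metric.sphere 0 1

/-- `ρ` is a rotation: a linear map preserving the norm, of determinant one -/
def IsRot {d : ℕ} (ρ : E d →ₗ[ℝ] E d) : Prop := (∀ x, ‖ρ x‖ = ‖x‖) ∧ LinearMap.det ρ = 1

/-- `F` contains a congruent copy of `A` -/
def HasCopy {d : ℕ} (F : Set (E d)) (A : Finset (E d)) : Prop :=
  ∃ ρ : E d →ₗ[ℝ] E d, IsRot ρ ∧ ∀ a ∈ A, ρ a ∈ F

theorem HasCopy.iso {d : ℕ} {F : Set (E d)} {A : Finset (E d)} (h : HasCopy F A) :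
    ∃ ρ : E d ≃ₗᵢ[ℝ] E d, ∀ a ∈ A, ρ a ∈ F := by
  obtain ⟨ρ, ⟨h1, -⟩, h2⟩ := h
  exact ⟨LinearIsometry.toLinearIsometryEquiv ⟨ρ, h1⟩ rfl, h2⟩

theorem result :
    ¬ (∀ d m : ℕ, 1 ≤ d → 1 ≤ m → ∀ F : Fin m → Set (E d),
        (∀ i, IsClosed (F i)) → (⋃ i, F i) = Sph d →
        ∃ i, ∀ A : Finset (E d), (↑A : Set (E d)) ⊆ Sph d → A.card + m = d + 3 →
          HasCopy (F i) A) := by
  classical
  intro h
  have hc : Continuous (fun x : E3 => |x 2|) := by fun_prop
  obtain ⟨i, hi⟩ := h 2 2 (by norm_num) (by norm_num)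
    ![Metric.sphere (0 : E3) 1 ∩ {x | 11 / 20 ≤ |x 2|}, Metric.sphere (0 : E3) 1 ∩ {x | |x 2| ≤ 11 / 20}]
    (by
      intro i
      fin_cases i
      · exact Metric.isClosed_sphere.inter (isClosed_le continuous_const hc)
      · exact Metric.isClosed_sphere.inter (isClosed_le hc continuous_const))
    (by
      ext x
      simp only [mem_iUnion, Fin.exists_fin_two]
      constructor
      · rintro (h | h) <;> exact h.1
      · intro hx
        rcases le_total (11 / 20) |x 2| with h | h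
        · exact Or.inl ⟨hx, h⟩
        · exact Or.inr ⟨hx, h⟩)
  fin_cases i
  · have h12 : p1 ≠ p2 := fun h => by
      have := congrArg (fun x : E3 => x 0) h
      norm_num [p1, p2] at this
    have h13 : p1 ≠ p3 := fun h => by
      have := congrArg (fun x : E3 => x 0) h
      norm_num [p1, p3] at this
    have h23 : p2 ≠ p3 := fun h => by
      have := congrArg (fun x : E3 => x 1) h
      simp [p2, p3] at this
      linarith [s3pos]
    obtain ⟨ρ, hρ⟩ := HasCopy.iso <| hi {p1, p2, p3} (by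
      intro x hx
      simp only [Finset.coe_insert, Finset.coe_singleton, mem_insert_iff, mem_singleton_iff] at hx
      rw [Sph, mem_sph]
      rcases hx with rfl | rfl | rfl <;> simp [p1, p2, p3] <;> nlinarith [s3])
      (by rw [Finset.card_eq_three.2 ⟨p1, p2, p3, h12, h13, h23, rfl⟩])
    have hsum : p1 + p2 + p3 = 0 := by
      ext j
      fin_cases j <;> simp [p1, p2, p3]
      norm_num
    have h1 := hρ p1 (by simp)
    have h2 := hρ p2 (by simp)
    have h3 := hρ p3 (by simp)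
    have h4 : ρ p1 2 + ρ p2 2 + ρ p3 2 = 0 := by
      have := congrArg (fun x : E3 => ρ x 2) hsum
      simpa using this
    have hb : ∀ x : E3, x ∈ Metric.sphere (0 : E3) 1 → |x 2| ≤ 1 := by
      intro x hx
      rw [mem_sph] at hx
      rw [abs_le]
      constructor <;> nlinarith [sq_nonneg (x 0), sq_nonneg (x 1)]
    have a1 := hb _ h1.1
    have a2 := hb _ h2.1
    have a3 := hb _ h3.1
    have b1 : 11 / 20 ≤ |ρ p1 2| := h1.2
    have b2 : 11 / 20 ≤ |ρ p2 2| := h2.2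
    have b3 : 11 / 20 ≤ |ρ p3 2| := h3.2
    rw [abs_le] at a1 a2 a3
    rw [le_abs] at b1 b2 b3
    rcases b1 with b1 | b1 <;> rcases b2 with b2 | b2 <;> rcases b3 with b3 | b3 <;>
      linarith [a1.1, a1.2, a2.1, a2.2, a3.1, a3.2]
  · have h12 : p1 ≠ q2 := fun h => by
      have := congrArg (fun x : E3 => x 0) h
      norm_num [p1, q2] at this
    have h13 : p1 ≠ q3 := fun h => by
      have := congrArg (fun x : E3 => x 0) h
      norm_num [p1, q3] at this
    have h23 : q2 ≠ q3 := fun h => by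
      have := congrArg (fun x : E3 => x 1) h
      simp [q2, q3] at this
    obtain ⟨ρ, hρ⟩ := HasCopy.iso <| hi {p1, q2, q3} (by
      intro x hx
      simp only [Finset.coe_insert, Finset.coe_singleton, mem_insert_iff, mem_singleton_iff] at hx
      rw [Sph, mem_sph]
      rcases hx with rfl | rfl | rfl <;> simp [p1, q2, q3])
      (by rw [Finset.card_eq_three.2 ⟨p1, q2, q3, h12, h13, h23, rfl⟩])
    have h1 : |ρ p1 2| ≤ 11 / 20 := (hρ p1 (by simp)).2
    have h2 : |ρ q2 2| ≤ 11 / 20 := (hρ q2 (by simp)).2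
    have h3 : |ρ q3 2| ≤ 11 / 20 := (hρ q3 (by simp)).2
    have hco : ∀ x : E3, ρ x 2 = inner ℝ (ρ.symm q3) x := by
      intro x
      rw [← ρ.inner_map_map, ρ.apply_symm_apply]
      simp [q3, PiLp.inner_apply, Fin.sum_univ_three]
    have hn : ‖ρ.symm q3‖ ^ 2 = 1 := by
      rw [ρ.symm.norm_map, norm_sq3]
      simp [q3]
    rw [norm_sq3] at hn
    rw [hco] at h1 h2 h3
    simp [p1, q2, q3, PiLp.inner_apply, Fin.sum_univ_three] at h1 h2 h3 hn
    rw [abs_le] at h1 h2 h3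
    nlinarith [h1.1, h1.2, h2.1, h2.2, h3.1, h3.2]

end Pool.Agent.Results.MP_01ee34_gt.Counter
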